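import Pool.Agent.KS6_4.HR.Rigid

set_option autoImplicit false

open MeasureTheory Complex Filter Topology Set AddCircle
open scoped ENNReal

namespace Pool.Agent.KS6_4.HR

open Pool.Agent.Y306

noncomputable section

lemma fourier_sub_apply (n : ℤ) (t s : AddCircle (1 : ℝ)) :
    (fourier n (t - s) : ℂ) = fourier n t * fourier (-n) s := by
  rw [fourier_apply, fourier_apply, fourier_apply, smul_sub, sub_eq_add_neg, AddCircle.toCircle_add,
    Circle.coe_mul, neg_smul]

lemma fourier_nsmul_apply (n : ℤ) (j : ℕ) (s : AddCircle (1 : ℝ)) :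
    (fourier n (j • s) : ℂ) = (fourier n s : ℂ) ^ j := by
  rw [fourier_apply, fourier_apply, smul_comm, AddCircle.toCircle_nsmul, Circle.coe_pow]

lemma fourier_pow_apply (n : ℤ) (j : ℕ) (t : AddCircle (1 : ℝ)) :
    (fourier n t : ℂ) ^ j = fourier (n * j) t := by
  rw [← fourier_nsmul_apply, fourier_apply, fourier_apply, mul_comm, mul_smul, natCast_zsmul,
    smul_comm]

/-- the symbol -/
def P (A B C : ℂ) (t : AddCircle (1 : ℝ)) : ℂ := A * fourier (-1) t + B * fourier 1 t + C

lemma circle_rel (al : AddCircle (1 : ℝ)) {A B C D : ℂ}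
    {a : ℤ → ℂ} (ha : Summable fun n : ℤ => ‖a n‖ ^ 2)
    (hrec : ∀ n : ℤ, A * a (n + 1) + B * a (n - 1) + (C + D * fourier (-n) al) * a n = 0) :
    ∃ F : AddCircle (1 : ℝ) → ℂ, MemLp F 2 haarAddCircle ∧ (∀ n, fourierCoeff F n = a n) ∧
      ∀ᵐ t ∂haarAddCircle, P A B C t * F t + D * F (t - al) = 0 := by
  obtain ⟨F, hF, hFa⟩ := exists_of_summable ha
  refine ⟨F, hF, hFa, ?_⟩
  have hFs := memLp_shift hF al
  have m1 : MemLp (fun t => A * ((fourier (-1) t : ℂ) * F t)) 2 haarAddCircle :=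
    (memLp_mul_cont hF (fourier (-1))).const_mul A
  have m2 : MemLp (fun t => B * ((fourier 1 t : ℂ) * F t)) 2 haarAddCircle :=
    (memLp_mul_cont hF (fourier 1)).const_mul B
  have m3 : MemLp (fun t => C * F t) 2 haarAddCircle := hF.const_mul C
  have m4 : MemLp (fun t => D * F (t - al)) 2 haarAddCircle := hFs.const_mul D
  have i1 := m1.integrable (by norm_num)
  have i2 := m2.integrable (by norm_num)
  have i3 := m3.integrable (by norm_num)
  have i4 := m4.integrable (by norm_num)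
  have hz := eq_zero_of_coeff (((m1.add m2).add m3).add m4) ?_
  · filter_upwards [hz] with t ht
    simp only [Pi.add_apply, Pi.zero_apply] at ht
    unfold P
    linear_combination ht
  · intro n
    rw [fourierCoeff.add ((i1.add i2).add i3) i4, fourierCoeff.add (i1.add i2) i3,
      fourierCoeff.add i1 i2]
    simp only [Pi.add_apply]
    rw [fourierCoeff.const_mul, fourierCoeff.const_mul, fourierCoeff.const_mul,
      fourierCoeff.const_mul, coeff_mul, coeff_mul, coeff_shift, hFa, hFa, hFa]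
    have := hrec n
    rw [show n - -1 = n + 1 by ring]
    linear_combination this

lemma iter_rel {al : AddCircle (1 : ℝ)} {p : AddCircle (1 : ℝ) → ℂ} {D : ℂ}
    {F : AddCircle (1 : ℝ) → ℂ} (h : ∀ᵐ t ∂haarAddCircle, p t * F t + D * F (t - al) = 0) :
    ∀ᵐ t ∂haarAddCircle, ∀ m : ℕ,
      D ^ m * F (t - m • al) = (∏ j ∈ Finset.range m, -p (t - j • al)) * F t := by
  have hall : ∀ᵐ t ∂haarAddCircle, ∀ j : ℕ,
      p (t - j • al) * F (t - j • al) + D * F (t - j • al - al) = 0 := by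
    rw [ae_all_iff]
    intro j
    have ht : Tendsto (fun t : AddCircle (1 : ℝ) => t - j • al) (ae haarAddCircle) (ae haarAddCircle) :=
      (measurePreserving_sub_right haarAddCircle (j • al)).quasiMeasurePreserving.tendsto_ae
    have h2 := ht.eventually h
    filter_upwards [h2] with t ht2
    exact ht2
  filter_upwards [hall] with t ht m
  induction m with
  | zero => simp
  | succ m ih =>
    rw [Finset.prod_range_succ]
    have h1 := ht m
    have h2 : t - (m + 1) • al = t - m • al - al := by rw [add_smul, one_smul]; abel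
    rw [h2]
    linear_combination (-p (t - m • al)) * ih + D ^ m * h1

instance : Nontrivial (AddCircle (1 : ℝ)) := by
  refine ⟨0, ((1 / 2 : ℝ) : AddCircle (1 : ℝ)), ?_⟩
  intro h
  have := (AddCircle.coe_eq_zero_iff (1 : ℝ)).1 h.symm
  obtain ⟨n, hn⟩ := this
  rw [zsmul_eq_mul, mul_one] at hn
  have h2 : (2 * n : ℤ) = 1 := by
    have : (2 : ℝ) * n = 1 := by linarith
    exact_mod_cast this
  omega

lemma poly_ae_ne {R : Polynomial ℂ} (hR : R ≠ 0) :
    ∀ᵐ t ∂(haarAddCircle : Measure (AddCircle (1 : ℝ))), R.eval (fourier 1 t : ℂ) ≠ 0 := by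
  have hfin : {t : AddCircle (1 : ℝ) | R.eval (fourier 1 t : ℂ) = 0}.Finite := by
    have h1 := Polynomial.finite_setOfPred_isRoot hR
    refine (h1.preimage (f := fun t : AddCircle (1 : ℝ) => (fourier 1 t : ℂ)) ?_).subset ?_
    · intro x _ y _ hxy
      simp only [fourier_one] at hxy
      exact AddCircle.injective_toCircle one_ne_zero (Subtype.ext hxy)
    · intro t ht
      exact ht
  have h0 := hfin.measure_zero haarAddCircle
  exact measure_eq_zero_iff_ae_notMem.1 h0

lemma ae_zero_coeff {F : AddCircle (1 : ℝ) → ℂ} (h : F =ᵐ[haarAddCircle] 0) (n : ℤ) :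
    fourierCoeff F n = 0 := by
  rw [congrFun (fourierCoeff_congr_ae h) n]
  simp [fourierCoeff]

lemma fourier_one_ne (t : AddCircle (1 : ℝ)) : (fourier 1 t : ℂ) ≠ 0 := by
  rw [← norm_pos_iff, norm_fourier_apply]; exact one_pos

/-- constant coefficients -/
theorem circle_const (al : AddCircle (1 : ℝ)) {A B C : ℂ} (hA : A ≠ 0)
    {a : ℤ → ℂ} (ha : Summable fun n : ℤ => ‖a n‖ ^ 2)
    (hrec : ∀ n : ℤ, A * a (n + 1) + B * a (n - 1) + C * a n = 0) : ∀ n, a n = 0 := by
  obtain ⟨F, hF, hFa, hrel⟩ := circle_rel al (A := A) (B := B) (C := C) (D := 0) ha (by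
    intro n; rw [zero_mul, add_zero]; exact hrec n)
  have hR : (Polynomial.C A + Polynomial.C C * Polynomial.X +
      Polynomial.C B * Polynomial.X ^ 2 : Polynomial ℂ) ≠ 0 := by
    intro h0
    have := congrArg (Polynomial.eval 0) h0
    simp at this
    exact hA this
  have h0 : F =ᵐ[haarAddCircle] 0 := by
    filter_upwards [hrel, poly_ae_ne hR] with t h1 h2
    have e1 : (fourier 1 t : ℂ) * fourier (-1) t = 1 := by rw [fourier_mul]; simp
    have h3 : (Polynomial.C A + Polynomial.C C * Polynomial.X +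
      Polynomial.C B * Polynomial.X ^ 2 : Polynomial ℂ).eval (fourier 1 t : ℂ) * F t = 0 := by
      simp only [Polynomial.eval_add, Polynomial.eval_mul, Polynomial.eval_C, Polynomial.eval_X,
        Polynomial.eval_pow]
      unfold P at h1
      linear_combination (fourier 1 t : ℂ) * h1 - A * F t * e1
    rcases mul_eq_zero.1 h3 with h4 | h4
    · exact absurd h4 h2
    · exact h4
  intro n
  rw [← hFa n]
  exact ae_zero_coeff h0 n

/-- rational rotation number -/
theorem circle_rat (al : AddCircle (1 : ℝ)) {m : ℕ} (hm : 1 ≤ m) (hal : m • al = 0) {A B C D : ℂ}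
    (hA : A ≠ 0) {a : ℤ → ℂ} (ha : Summable fun n : ℤ => ‖a n‖ ^ 2)
    (hrec : ∀ n : ℤ, A * a (n + 1) + B * a (n - 1) + (C + D * fourier (-n) al) * a n = 0) :
    ∀ n, a n = 0 := by
  obtain ⟨F, hF, hFa, hrel⟩ := circle_rel al ha hrec
  set pj : ℕ → Polynomial ℂ := fun j => Polynomial.C (-(A * (fourier 1 al : ℂ) ^ j)) -
    Polynomial.C C * Polynomial.X - Polynomial.C (B * (fourier (-1) al : ℂ) ^ j) * Polynomial.X ^ 2
    with hpj
  set R : Polynomial ℂ := Polynomial.C (D ^ m) * Polynomial.X ^ m -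
    ∏ j ∈ Finset.range m, pj j with hRdef
  have hR : R ≠ 0 := by
    intro h0
    have := congrArg (Polynomial.eval 0) h0
    rw [hRdef, Polynomial.eval_sub, Polynomial.eval_prod] at this
    simp only [hpj, Polynomial.eval_mul, Polynomial.eval_C, Polynomial.eval_pow, Polynomial.eval_X,
      Polynomial.eval_sub, Polynomial.eval_zero, mul_zero, sub_zero] at this
    rw [zero_pow (by omega : m ≠ 0), mul_zero, zero_sub, neg_eq_zero, Finset.prod_eq_zero_iff] at this
    obtain ⟨j, _, hj⟩ := this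
    rw [zero_pow (by norm_num), mul_zero, sub_zero, neg_eq_zero] at hj
    rcases mul_eq_zero.1 hj with h1 | h1
    · exact hA h1
    · exact pow_ne_zero _ (fourier_one_ne al) h1
  have h0 : F =ᵐ[haarAddCircle] 0 := by
    filter_upwards [iter_rel hrel, poly_ae_ne hR] with t h1 h2
    have h3 := h1 m
    rw [hal, sub_zero] at h3
    have e1 : (fourier 1 t : ℂ) * fourier (-1) t = 1 := by rw [fourier_mul]; simp
    have h4 : ∀ j : ℕ, (pj j).eval (fourier 1 t : ℂ) = fourier 1 t * -P A B C (t - j • al) := by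
      intro j
      simp only [hpj, P, Polynomial.eval_sub, Polynomial.eval_mul, Polynomial.eval_C,
        Polynomial.eval_X, Polynomial.eval_pow]
      rw [fourier_sub_apply, fourier_sub_apply, neg_neg, fourier_nsmul_apply, fourier_nsmul_apply]
      linear_combination (A * (fourier 1 al : ℂ) ^ j) * e1
    have h5 : R.eval (fourier 1 t : ℂ) * F t = 0 := by
      rw [hRdef, Polynomial.eval_sub, Polynomial.eval_prod, Finset.prod_congr rfl fun j _ => h4 j,
        Finset.prod_mul_distrib, Finset.prod_const, Finset.card_range]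
      simp only [Polynomial.eval_mul, Polynomial.eval_C, Polynomial.eval_pow, Polynomial.eval_X]
      linear_combination (fourier 1 t : ℂ) ^ m * h3
    rcases mul_eq_zero.1 h5 with h6 | h6
    · exact absurd h6 h2
    · exact h6
  intro n
  rw [← hFa n]
  exact ae_zero_coeff h0 n

/-- products of linear factors along an orbit -/
lemma factor {θ : ℝ} {q : ℕ → ℕ} (h : Rig θ q) {z : ℂ} (hz : ‖z‖ ≠ 1) :
    ∃ (e : ℤ) (ρ : ℝ) (u : ℕ → ℂ) (Q : ℕ → C(AddCircle (1 : ℝ), ℂ)),
      ((‖z‖ < 1 ∧ e = 1 ∧ ρ = 1) ∨ (1 < ‖z‖ ∧ e = 0 ∧ ρ = ‖z‖)) ∧ (∀ m, ‖u m‖ = ρ ^ m) ∧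
      (∀ (m : ℕ) (t : AddCircle (1 : ℝ)),
        ∏ j ∈ Finset.range m, ((fourier 1 (t - j • (θ : AddCircle (1 : ℝ))) : ℂ) - z) =
          u m * fourier (e * m) t * Q m t) ∧
      ∀ δ : ℝ, 0 < δ → ∀ᶠ n in atTop, ∀ t, ‖Q (q n) t - 1‖ ≤ δ := by
  have hω : (fourier 1 (θ : AddCircle (1 : ℝ)) : ℂ) = ee θ := by rw [fourier_ee]; simp
  have hω' : (fourier (-1) (θ : AddCircle (1 : ℝ)) : ℂ) = starRingEnd ℂ (ee θ) := by
    rw [fourier_neg, hω]
  have hinv : ∀ t : AddCircle (1 : ℝ), (fourier 1 t : ℂ) * fourier (-1) t = 1 := by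
    intro t
    rw [fourier_mul]; simp
  have hsh : ∀ (j : ℕ) (t : AddCircle (1 : ℝ)), (fourier 1 (t - j • (θ : AddCircle (1 : ℝ))) : ℂ) =
      fourier 1 t * starRingEnd ℂ (ee θ) ^ j := by
    intro j t
    rw [fourier_sub_apply, fourier_nsmul_apply, hω']
  have hconj : ∀ j : ℕ, starRingEnd ℂ (ee θ) ^ j * ee θ ^ j = 1 := by
    intro j
    rw [← mul_pow, Complex.conj_mul', norm_ee]
    simp
  rcases lt_or_gt_of_ne hz with hz1 | hz1
  · refine ⟨1, 1, fun m => ∏ j ∈ Finset.range m, starRingEnd ℂ (ee θ) ^ j,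
      fun m => ⟨fun t => ∏ j ∈ Finset.range m, (1 - z * fourier (-1) t * ee θ ^ j), by fun_prop⟩,
      Or.inl ⟨hz1, rfl, rfl⟩, ?_, ?_, ?_⟩
    · intro m
      rw [norm_prod, one_pow]
      refine Finset.prod_eq_one fun j _ => ?_
      rw [norm_pow, RCLike.norm_conj, norm_ee, one_pow]
    · intro m t
      simp only [ContinuousMap.coe_mk]
      have h1 : ∀ j ∈ Finset.range m, ((fourier 1 (t - j • (θ : AddCircle (1 : ℝ))) : ℂ) - z) =
          (starRingEnd ℂ (ee θ) ^ j * fourier 1 t) * (1 - z * fourier (-1) t * ee θ ^ j) := by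
        intro j _
        rw [hsh]
        linear_combination (z * starRingEnd ℂ (ee θ) ^ j * ee θ ^ j) * hinv t + z * hconj j
      rw [Finset.prod_congr rfl h1, Finset.prod_mul_distrib, Finset.prod_mul_distrib,
        Finset.prod_const, Finset.card_range, fourier_pow_apply]
    · intro δ hδ
      filter_upwards [h.prod (norm_nonneg z) hz1 hδ] with n hn t
      exact hn _ (by rw [norm_mul, norm_fourier_apply, mul_one])
  · have hz0 : z ≠ 0 := by
      intro h0; rw [h0] at hz1; simp at hz1; linarith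
    have hz2 : ‖z⁻¹‖ < 1 := by rw [norm_inv]; exact inv_lt_one_of_one_lt₀ hz1
    refine ⟨0, ‖z‖, fun m => (-z) ^ m,
      fun m => ⟨fun t => ∏ j ∈ Finset.range m, (1 - z⁻¹ * fourier 1 t * starRingEnd ℂ (ee θ) ^ j),
        by fun_prop⟩, Or.inr ⟨hz1, rfl, rfl⟩, ?_, ?_, ?_⟩
    · intro m
      rw [norm_pow, norm_neg]
    · intro m t
      simp only [ContinuousMap.coe_mk]
      have h1 : ∀ j ∈ Finset.range m, ((fourier 1 (t - j • (θ : AddCircle (1 : ℝ))) : ℂ) - z) =
          (-z) * (1 - z⁻¹ * fourier 1 t * starRingEnd ℂ (ee θ) ^ j) := by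
        intro j _
        rw [hsh]
        field_simp
        ring
      rw [Finset.prod_congr rfl h1, Finset.prod_mul_distrib, Finset.prod_const, Finset.card_range]
      simp
    · intro δ hδ
      filter_upwards [h.prod' (norm_nonneg z⁻¹) hz2 hδ] with n hn t
      exact hn _ (by rw [norm_mul, norm_fourier_apply, mul_one])

lemma coeff_compare {F : AddCircle (1 : ℝ) → ℂ} (hF : MemLp F 2 haarAddCircle)
    {G : C(AddCircle (1 : ℝ), ℂ)} {δ : ℝ} (hG : ∀ t, ‖G t - 1‖ ≤ δ) (n : ℤ) :
    ‖fourierCoeff (fun t => G t * F t) n - fourierCoeff F n‖ ≤ δ * ∫ t, ‖F t‖ ∂haarAddCircle := by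
  have hFi := hF.integrable (by norm_num)
  have m1 := (memLp_mul_cont hF G).integrable (by norm_num)
  have h1 : fourierCoeff (fun t => G t * F t) n - fourierCoeff F n =
      ∫ t, (fourier (-n) t : ℂ) • ((G t - 1) * F t) ∂haarAddCircle := by
    unfold fourierCoeff
    rw [← integral_sub]
    · congr 1
      funext t
      simp only [smul_eq_mul]
      ring
    · have := (memLp_mul_cont (memLp_mul_cont hF G) (fourier (-n))).integrable (by norm_num)
      exact this
    · have := (memLp_mul_cont hF (fourier (-n))).integrable (by norm_num)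
      exact this
  rw [h1, ← integral_const_mul]
  refine norm_integral_le_of_norm_le (hFi.norm.const_mul δ) (Eventually.of_forall fun t => ?_)
  rw [norm_smul, norm_fourier_apply, one_mul, norm_mul]
  exact mul_le_mul_of_nonneg_right (hG t) (norm_nonneg _)

/-- **Irrational rotation number.** -/
theorem circle_irr {θ : ℝ} (hθ : Irrational θ) {A B C D : ℂ} (hB : B ≠ 0)
    (hD : D ≠ 0) (hgood : ∀ w : ℂ, w ^ 2 + C * w + A * B = 0 → ‖w‖ ≠ ‖B‖ ∧ ‖w‖ ≠ ‖D‖)
    {a : ℤ → ℂ} (ha : Summable fun n : ℤ => ‖a n‖ ^ 2)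
    (hrec : ∀ n : ℤ, A * a (n + 1) + B * a (n - 1) +
      (C + D * fourier (-n) (θ : AddCircle (1 : ℝ))) * a n = 0) :
    ∀ n, a n = 0 := by
  obtain ⟨F, hF, hFa, hrel⟩ := circle_rel _ ha hrec
  obtain ⟨q, hq⟩ := exists_rig hθ
  -- the roots
  obtain ⟨s, hs⟩ : ∃ s : ℂ, s ^ 2 = C ^ 2 - 4 * A * B :=
    IsAlgClosed.exists_pow_nat_eq _ (by norm_num)
  set z1 : ℂ := (-C + s) / (2 * B) with hz1
  set z2 : ℂ := (-C - s) / (2 * B) with hz2
  have hsum : B * (z1 + z2) = -C := by rw [hz1, hz2]; field_simp; ring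
  have hprod : B * (z1 * z2) = A := by
    rw [hz1, hz2]
    field_simp
    linear_combination -hs
  clear_value z1 z2
  have hr1 : (B * z1) ^ 2 + C * (B * z1) + A * B = 0 := by
    linear_combination (B * z1) * hsum - B * hprod
  have hr2 : (B * z2) ^ 2 + C * (B * z2) + A * B = 0 := by
    linear_combination (B * z2) * hsum - B * hprod
  have hBn : 0 < ‖B‖ := norm_pos_iff.2 hB
  have hDn : 0 < ‖D‖ := norm_pos_iff.2 hD
  have hn1 : ‖z1‖ ≠ 1 := by
    intro h0
    have := (hgood _ hr1).1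
    rw [norm_mul, h0, mul_one] at this
    exact this rfl
  have hn2 : ‖z2‖ ≠ 1 := by
    intro h0
    have := (hgood _ hr2).1
    rw [norm_mul, h0, mul_one] at this
    exact this rfl
  obtain ⟨e1, ρ1, u1, Q1, hc1, hu1, hp1, hQ1⟩ := factor hq hn1
  obtain ⟨e2, ρ2, u2, Q2, hc2, hu2, hp2, hQ2⟩ := factor hq hn2
  have hρ1 : 0 < ρ1 := by rcases hc1 with ⟨_, _, h⟩ | ⟨h', _, h⟩ <;> rw [h] <;> linarith
  have hρ2 : 0 < ρ2 := by rcases hc2 with ⟨_, _, h⟩ | ⟨h', _, h⟩ <;> rw [h] <;> linarith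
  set e : ℤ := e1 + e2 - 1 with he
  set σ : ℝ := ‖B‖ * ρ1 * ρ2 / ‖D‖ with hσ
  have hσ0 : 0 < σ := by positivity
  have hcase : σ ≠ 1 ∨ e ≠ 0 := by
    rcases hc1 with ⟨_, h1, h1'⟩ | ⟨_, h1, h1'⟩ <;> rcases hc2 with ⟨_, h2, h2'⟩ | ⟨_, h2, h2'⟩
    · right; rw [he, h1, h2]; norm_num
    · left
      rw [hσ, h1', h2']
      intro h3
      rw [div_eq_one_iff_eq hDn.ne', mul_one, ← norm_mul] at h3
      exact (hgood _ hr2).2 h3
    · left
      rw [hσ, h1', h2']
      intro h3
      rw [div_eq_one_iff_eq hDn.ne', mul_one, ← norm_mul] at h3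
      exact (hgood _ hr1).2 h3
    · right; rw [he, h1, h2]; norm_num
  -- the iterated relation
  set v : ℕ → ℂ := fun m => ∏ j ∈ Finset.range m, (fourier 1 (θ : AddCircle (1 : ℝ)) : ℂ) ^ j with hv
  have hvn : ∀ m, ‖v m‖ = 1 := by
    intro m
    simp only [hv]
    rw [norm_prod]
    refine Finset.prod_eq_one fun j _ => ?_
    rw [norm_pow, norm_fourier_apply, one_pow]
  set c : ℕ → ℂ := fun m => (-B) ^ m * v m * u1 m * u2 m with hc
  have hcn : ∀ m, ‖c m‖ = (‖B‖ * ρ1 * ρ2) ^ m := by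
    intro m
    simp only [hc]
    rw [norm_mul, norm_mul, norm_mul, norm_pow, norm_neg, hvn, hu1, hu2, mul_pow, mul_pow]
    ring
  have hP : ∀ t, -P A B C t = -B * fourier (-1) t * ((fourier 1 t : ℂ) - z1) *
      ((fourier 1 t : ℂ) - z2) := by
    intro t
    unfold P
    have h1 : (fourier 1 t : ℂ) * fourier (-1) t = 1 := by rw [fourier_mul]; simp
    linear_combination (B * fourier 1 t - B * (z1 + z2)) * h1 + (fourier (-1) t : ℂ) * hprod - hsum
  have hprodP : ∀ (m : ℕ) (t : AddCircle (1 : ℝ)),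
      (∏ j ∈ Finset.range m, -P A B C (t - j • (θ : AddCircle (1 : ℝ)))) =
        c m * (fourier (e * m) t * ((Q1 m * Q2 m) t)) := by
    intro m t
    rw [Finset.prod_congr rfl fun j _ => hP _, Finset.prod_mul_distrib, Finset.prod_mul_distrib,
      Finset.prod_mul_distrib, hp1, hp2, Finset.prod_const, Finset.card_range]
    have h1 : ∏ j ∈ Finset.range m, (fourier (-1) (t - j • (θ : AddCircle (1 : ℝ))) : ℂ) =
        v m * fourier (-1 * m) t := by
      simp only [hv]
      rw [← fourier_pow_apply, ← Finset.card_range m, ← Finset.prod_const, Finset.card_range,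
        ← Finset.prod_mul_distrib]
      refine Finset.prod_congr rfl fun j _ => ?_
      rw [fourier_sub_apply, neg_neg, fourier_nsmul_apply]
      ring
    have h2 : (fourier (e * m) t : ℂ) = fourier (-1 * m) t * fourier (e1 * m) t * fourier (e2 * m) t := by
      rw [fourier_mul, fourier_mul]
      congr 2
      rw [he]; ring
    rw [h1, h2, ContinuousMap.mul_apply]
    simp only [hc]
    ring
  have hit := iter_rel hrel
  set M : ℝ := ∫ t, ‖F t‖ ∂haarAddCircle with hM
  have hM0 : 0 ≤ M := integral_nonneg fun t => norm_nonneg _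
  have hcoef : ∀ (m : ℕ) (n : ℤ), ‖D‖ ^ m * ‖a n‖ =
      (‖B‖ * ρ1 * ρ2) ^ m * ‖fourierCoeff (fun t => (Q1 m * Q2 m) t * F t) (n - e * m)‖ := by
    intro m n
    have h1 : (fun t => D ^ m * F (t - m • (θ : AddCircle (1 : ℝ)))) =ᵐ[haarAddCircle]
        fun t => c m * ((fourier (e * m) t : ℂ) * ((Q1 m * Q2 m) t * F t)) := by
      filter_upwards [hit] with t ht
      rw [ht m, hprodP]
      ring
    have h2 := congrFun (fourierCoeff_congr_ae h1) n
    rw [fourierCoeff.const_mul, fourierCoeff.const_mul, coeff_shift, coeff_mul, hFa] at h2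
    have h3 := congrArg norm h2
    rw [norm_mul, norm_mul, norm_mul, norm_pow, norm_fourier_apply, one_mul, hcn] at h3
    exact h3
  have hest : ∀ δ : ℝ, 0 < δ → ∀ᶠ i in atTop, ∀ n : ℤ,
      ‖a n‖ ≤ σ ^ (q i) * (‖a (n - e * q i)‖ + δ) ∧
      σ ^ (q i) * ‖a (n - e * q i)‖ ≤ ‖a n‖ + σ ^ (q i) * δ := by
    intro δ hδ
    set η : ℝ := min 1 (δ / (3 * (M + 1))) with hη
    have hη0 : 0 < η := lt_min one_pos (by positivity)
    filter_upwards [hQ1 η hη0, hQ2 η hη0] with i h1 h2 n
    have h3 : ∀ t, ‖(Q1 (q i) * Q2 (q i)) t - 1‖ ≤ 3 * η := by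
      intro t
      rw [ContinuousMap.mul_apply]
      have e3 : Q1 (q i) t * Q2 (q i) t - 1 = (Q1 (q i) t - 1) * (Q2 (q i) t - 1) +
        (Q1 (q i) t - 1) + (Q2 (q i) t - 1) := by ring
      rw [e3]
      have h4 := h1 t
      have h5 := h2 t
      have h6 : ‖(Q1 (q i) t - 1) * (Q2 (q i) t - 1)‖ ≤ η := by
        rw [norm_mul]
        calc ‖Q1 (q i) t - 1‖ * ‖Q2 (q i) t - 1‖ ≤ η * 1 := by
              refine mul_le_mul h4 (h5.trans (min_le_left _ _)) (norm_nonneg _) hη0.le
          _ = η := mul_one _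
      refine (norm_add_le _ _).trans ?_
      have := norm_add_le ((Q1 (q i) t - 1) * (Q2 (q i) t - 1)) (Q1 (q i) t - 1)
      linarith
    have h4 := coeff_compare hF h3 (n - e * q i)
    have h5 : 3 * η * ∫ t, ‖F t‖ ∂haarAddCircle ≤ δ := by
      rw [← hM]
      have h6 : η ≤ δ / (3 * (M + 1)) := min_le_right _ _
      have h7 : 3 * η * M ≤ 3 * (δ / (3 * (M + 1))) * (M + 1) := by
        have : 0 < δ / (3 * (M + 1)) := by positivity
        have h8 : 3 * η * M ≤ 3 * (δ / (3 * (M + 1))) * M := by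
          apply mul_le_mul_of_nonneg_right _ hM0
          linarith
        nlinarith
      have h8 : 3 * (δ / (3 * (M + 1))) * (M + 1) = δ := by
        have : M + 1 ≠ 0 := by positivity
        field_simp
      linarith
    rw [hFa] at h4
    have h6 := hcoef (q i) n
    have h7 : ‖a n‖ = σ ^ q i * ‖fourierCoeff (fun t => (Q1 (q i) * Q2 (q i)) t * F t) (n - e * q i)‖ := by
      rw [hσ, div_pow, div_mul_eq_mul_div, eq_div_iff (by positivity)]
      linarith
    have h8 := norm_sub_norm_le (fourierCoeff (fun t => (Q1 (q i) * Q2 (q i)) t * F t) (n - e * q i))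
      (a (n - e * q i))
    have h9 := norm_sub_norm_le (a (n - e * q i))
      (fourierCoeff (fun t => (Q1 (q i) * Q2 (q i)) t * F t) (n - e * q i))
    rw [norm_sub_rev] at h9
    have hσq : 0 < σ ^ q i := by positivity
    constructor
    · rw [h7]
      apply mul_le_mul_of_nonneg_left _ hσq.le
      linarith
    · rw [h7, ← mul_add]
      apply mul_le_mul_of_nonneg_left _ hσq.le
      linarith
  have hbd : ∃ K : ℝ, 0 ≤ K ∧ ∀ n, ‖a n‖ ≤ K := by
    refine ⟨√(∑' n : ℤ, ‖a n‖ ^ 2), Real.sqrt_nonneg _, fun n => ?_⟩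
    apply Real.le_sqrt_of_sq_le
    exact ha.le_tsum n fun _ _ => by positivity
  obtain ⟨K, hK0, hK⟩ := hbd
  intro n
  by_contra hne
  have hpos : 0 < ‖a n‖ := norm_pos_iff.2 hne
  rcases lt_trichotomy σ 1 with h1 | h1 | h1
  · have h2 : Tendsto (fun i => σ ^ q i * (K + 1)) atTop (𝓝 0) := by
      have := ((tendsto_pow_atTop_nhds_zero_of_lt_one hσ0.le h1).comp hq.tend).mul_const (K + 1)
      simpa using this
    obtain ⟨i, hi1, hi2⟩ := ((hest 1 one_pos).and (h2.eventually (gt_mem_nhds hpos))).exists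
    have h3 := (hi1 n).1
    have h4 : σ ^ q i * (‖a (n - e * q i)‖ + 1) ≤ σ ^ q i * (K + 1) := by
      have := hK (n - e * q i)
      gcongr
    linarith
  · have he0 : e ≠ 0 := by
      rcases hcase with h | h
      · exact absurd h1 h
      · exact h
    have h2 : Tendsto (fun i => ‖a (n - e * q i)‖ ^ 2) atTop (𝓝 0) := by
      have h3 := ha.tendsto_cofinite_zero
      have h4 : Tendsto (fun m : ℕ => n - e * m) atTop cofinite := by
        rw [← Nat.cofinite_eq_atTop]
        apply Function.Injective.tendsto_cofinite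
        intro x y hxy
        simp only [sub_right_inj] at hxy
        have := mul_left_cancel₀ he0 hxy
        exact_mod_cast this
      exact (h3.comp h4).comp hq.tend
    have h2' : ∀ᶠ i in atTop, ‖a (n - e * q i)‖ ^ 2 < (‖a n‖ / 4) ^ 2 :=
      h2.eventually (gt_mem_nhds (by positivity))
    obtain ⟨i, hi1, hi2⟩ := ((hest (‖a n‖ / 4) (by positivity)).and h2').exists
    have h3 := (hi1 n).1
    rw [h1, one_pow, one_mul] at h3
    have h4 : ‖a (n - e * q i)‖ < ‖a n‖ / 4 := lt_of_pow_lt_pow_left₀ 2 (by positivity) hi2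
    linarith
  · have h2 : Tendsto (fun i => (σ ^ q i)⁻¹ * K) atTop (𝓝 0) := by
      have h3 := ((tendsto_pow_atTop_atTop_of_one_lt h1).comp hq.tend).inv_tendsto_atTop
      have := h3.mul_const K
      simpa using this
    have h2' : ∀ᶠ i in atTop, (σ ^ q i)⁻¹ * K < ‖a n‖ / 4 :=
      h2.eventually (gt_mem_nhds (by positivity))
    obtain ⟨i, hi1, hi2⟩ := ((hest (‖a n‖ / 4) (by positivity)).and h2').exists
    have h3 := (hi1 (n + e * q i)).2
    rw [show n + e * q i - e * q i = n by ring] at h3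
    have hσq : 0 < σ ^ q i := by positivity
    have h4 := hK (n + e * q i)
    have h5 : K < σ ^ q i * (‖a n‖ / 4) := by
      have h6 : (σ ^ q i)⁻¹ * K < ‖a n‖ / 4 := hi2
      rw [inv_mul_lt_iff₀ hσq] at h6
      exact h6
    nlinarith

end

end Pool.Agent.KS6_4.HR
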