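import Pool.Agent.KS6_4.HR.Moves

set_option autoImplicit false

open MeasureTheory Complex Filter Topology Set FourierTransform AddCircle
open scoped ENNReal

namespace Pool.Agent.KS6_4.HR

open Pool.Agent.Y306

noncomputable section

/-- three points, after moving them into position -/
lemma three_points {β s b' : ℝ} (hs : s ≠ 0) (hne : β - b' / 2 ≠ 0) {c : Fin 4 → ℂ}
    (h0 : c 0 = 0) (h1 : c 1 ≠ 0) :
    Ind ![((0 : ℝ), (0 : ℝ)), (0, β), (-s, 0), (s, b')] c := by
  refine move_translate ((-s, 0) : ℝ × ℝ) (move_shear (-(b' / (2 * s))) (move_rot ?_))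
  intro c' f hc hr
  have hc0 : c' 0 = 0 := by rw [← norm_eq_zero, hc, h0, norm_zero]
  have hc1 : c' 1 ≠ 0 := by rw [← norm_pos_iff, hc]; exact norm_pos_iff.2 h1
  apply eq_zero_of_ae
  refine first_order' (Lp.memLp f) (s := β - b' / 2) (β := -(2 * s)) hne
    (neg_ne_zero.2 (mul_ne_zero two_ne_zero hs)) (a := c' 2) (b := c' 3) (d := c' 1) hc1
    (u := fun x => ee (-s * x)) (fun x => norm_ee _) ?_
  filter_upwards [rel_ae4 hr] with x hx
  rw [Fin.sum_univ_four] at hx
  simp only [hc0, Fin.isValue, Matrix.cons_val_zero, Matrix.cons_val_one, Matrix.cons_val,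
    Prod.fst_sub, Prod.snd_sub, zero_mul, zero_add] at hx
  have e1 : β - 0 + -(b' / (2 * s)) * (0 - -s) = β - b' / 2 := by field_simp; ring
  have e2 : (0 : ℝ) - 0 + -(b' / (2 * s)) * (-s - -s) = 0 := by ring
  have e3 : b' - 0 + -(b' / (2 * s)) * (s - -s) = 0 := by field_simp; ring
  have e4 : -(0 - -s) = -s := by ring
  have e5 : -(-s - -s) = 0 := by ring
  have e6 : -(s - -s) = -(2 * s) := by ring
  rw [e1, e2, e3, e4, e5, e6, sub_zero, zero_mul, ee_zero] at hx
  linear_combination hx

theorem core {β s b' : ℝ} (hβ : β ≠ 0) (hs : s ≠ 0) {N : ℤ} (hN : N ≠ 0) (hb : s * b' = N)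
    {c : Fin 4 → ℂ} (hc : c ≠ 0) :
    Ind ![((0 : ℝ), (0 : ℝ)), (0, β), (-s, 0), (s, b')] c := by
  intro c' f hcc hr
  have hc' : ¬ (c' 0 = 0 ∧ c' 1 = 0 ∧ c' 2 = 0 ∧ c' 3 = 0) := by
    rintro ⟨h0, h1, h2, h3⟩
    apply hc
    funext i
    have : c' i = 0 := by fin_cases i <;> assumption
    rw [Pi.zero_apply, ← norm_eq_zero, ← hcc, this, norm_zero]
  have hb0 : b' ≠ 0 := by
    rintro rfl
    rw [mul_zero] at hb
    exact hN (by exact_mod_cast hb.symm)
  have h : ∀ᵐ x : ℝ, c' 0 * f x + c' 1 * (ee (β * x) * f x) + c' 2 * f (x + s) +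
      c' 3 * (ee (b' * x) * f (x - s)) = 0 := by
    filter_upwards [rel_ae4 hr] with x hx
    rw [Fin.sum_univ_four] at hx
    simp only [Fin.isValue, Matrix.cons_val_zero, Matrix.cons_val_one, Matrix.cons_val,
      zero_mul, ee_zero, sub_zero, one_mul, sub_neg_eq_add] at hx
    exact hx
  by_cases h2 : c' 2 = 0
  · by_cases h3 : c' 3 = 0
    · refine eq_zero_of_ae (zero_order hβ (a := c' 0) (b := c' 1) ?_ ?_)
      · by_contra hcon
        push Not at hcon
        exact hc' ⟨hcon.1, hcon.2, h2, h3⟩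
      · filter_upwards [h] with x hx
        rw [h2, h3] at hx
        linear_combination hx
    · refine eq_zero_of_ae (first_order' (Lp.memLp f) hs hβ h3 (a := c' 0) (b := c' 1)
        (u := fun x => ee (b' * x)) (fun x => norm_ee _) ?_)
      filter_upwards [h] with x hx
      rw [h2] at hx
      linear_combination hx
  · by_cases h3 : c' 3 = 0
    · refine eq_zero_of_ae (first_order' (Lp.memLp f) (neg_ne_zero.2 hs) hβ h2 (a := c' 0)
        (b := c' 1) (u := fun _ => 1) (fun x => norm_one) ?_)
      filter_upwards [h] with x hx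
      rw [h3] at hx
      rw [sub_neg_eq_add]
      linear_combination hx
    · -- the fibres
      have hfib : ∀ᵐ y : ℝ, (Summable fun k : ℤ => ‖f (y + k * s)‖ ^ 2) ∧ ∀ k : ℤ,
          c' 2 * f (y + ((k + 1 : ℤ) : ℝ) * s) + (c' 3 * ee (b' * y)) * f (y + ((k - 1 : ℤ) : ℝ) * s) +
            (c' 0 + (c' 1 * ee (β * y)) * fourier (-k) ((-(β * s) : ℝ) : AddCircle (1 : ℝ))) *
              f (y + k * s) = 0 := by
        have hZ : ∀ᵐ y : ℝ, ∀ k : ℤ, c' 0 * f (y + k * s) + c' 1 * (ee (β * (y + k * s)) *
            f (y + k * s)) + c' 2 * f (y + k * s + s) +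
            c' 3 * (ee (b' * (y + k * s)) * f (y + k * s - s)) = 0 := by
          rw [ae_all_iff]
          intro k
          exact ae_shift h (k * s)
        filter_upwards [hZ, ae_summable (Lp.memLp f) hs] with y hy1 hy2
        refine ⟨hy2, fun k => ?_⟩
        have h5 := hy1 k
        have e1 : ee (b' * (y + k * s)) = ee (b' * y) := by
          have : b' * (y + k * s) = b' * y + ((k * N : ℤ) : ℝ) := by
            push_cast; rw [← hb]; ring
          rw [this, ee_add, ee_int, mul_one]
        have e2 : ee (β * (y + k * s)) = ee (β * y) * ee (((-k : ℤ) : ℝ) * (-(β * s))) := by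
          rw [← ee_add]; congr 1; push_cast; ring
        rw [fourier_ee]
        rw [e1, e2] at h5
        rw [show y + ((k + 1 : ℤ) : ℝ) * s = y + k * s + s by push_cast; ring,
          show y + ((k - 1 : ℤ) : ℝ) * s = y + k * s - s by push_cast; ring]
        linear_combination h5
      by_cases h1 : c' 1 = 0
      · refine eq_zero_of_ae ?_
        filter_upwards [hfib] with y hy
        have := circle_const (0 : AddCircle (1 : ℝ)) h2 hy.1 (C := c' 0) (B := c' 3 * ee (b' * y))
          (by
            intro k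
            have := hy.2 k
            rw [h1] at this
            linear_combination this) 0
        simpa using this
      · by_cases hirr : Irrational (-(β * s))
        · by_cases h0 : c' 0 = 0
          · have hne : β - b' / 2 ≠ 0 := by
              intro h0
              apply hirr
              refine ⟨-(N / 2 : ℚ), ?_⟩
              push_cast
              rw [← hb]
              have : b' = 2 * β := by linarith
              rw [this]; ring
            exact three_points hs hne h0 h1 c' f (fun i => rfl) hr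
          · have hκ : -(c' 2 * c' 3) ≠ 0 := neg_ne_zero.2 (mul_ne_zero h2 h3)
            have hinj : Function.Injective fun y : ℝ => -(b' * y) := by
              intro x y hxy
              have : b' * x = b' * y := by simpa using hxy
              exact mul_left_cancel₀ hb0 this
            have hbad : ∀ {r : ℝ}, 0 < r → ∀ᵐ y : ℝ, ¬ ∃ w : ℂ, ‖w‖ = r ∧
                w ^ 2 + c' 0 * w = -(c' 2 * c' 3) * ee (b' * y) := by
              intro r hr0
              have h5 := (bad_countable h0 hκ hr0).preimage hinj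
              have h6 := measure_eq_zero_iff_ae_notMem.1 (h5.measure_zero volume)
              filter_upwards [h6] with y hy hcon
              apply hy
              simp only [mem_preimage, mem_ofPred_eq, neg_neg]
              exact hcon
            refine eq_zero_of_ae ?_
            filter_upwards [hfib, hbad (norm_pos_iff.2 h3), hbad (norm_pos_iff.2 h1)] with y hy hy3 hy4
            have hB : c' 3 * ee (b' * y) ≠ 0 := mul_ne_zero h3 (ee_ne _)
            have hD : c' 1 * ee (β * y) ≠ 0 := mul_ne_zero h1 (ee_ne _)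
            have := circle_irr hirr hB hD (A := c' 2) (C := c' 0) (by
              intro w hw
              have hw' : w ^ 2 + c' 0 * w = -(c' 2 * c' 3) * ee (b' * y) := by
                linear_combination hw
              rw [norm_mul, norm_ee, mul_one, norm_mul, norm_ee, mul_one]
              exact ⟨fun h5 => hy3 ⟨w, h5, hw'⟩, fun h5 => hy4 ⟨w, h5, hw'⟩⟩) hy.1 hy.2 0
            simpa using this
        · unfold Irrational at hirr
          push Not at hirr
          obtain ⟨r, hr'⟩ := hirr
          refine eq_zero_of_ae ?_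
          filter_upwards [hfib] with y hy
          have hal : r.den • ((-(β * s) : ℝ) : AddCircle (1 : ℝ)) = 0 := by
            rw [← hr', ← AddCircle.coe_nsmul, AddCircle.coe_eq_zero_iff]
            refine ⟨r.num, ?_⟩
            rw [zsmul_eq_mul, mul_one, nsmul_eq_mul]
            exact_mod_cast (Rat.den_mul_eq_num r).symm
          have := circle_rat _ (Nat.succ_le_of_lt r.pos) hal h2 hy.1 hy.2 0
          simpa using this

/-- the second point on the frequency axis -/
theorem vertical {β s1 t1 s2 t2 : ℝ} (hβ : β ≠ 0) (hmid : s1 + s2 = 0) {N : ℤ} (hN : N ≠ 0)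
    (hdet : s1 * t2 - t1 * s2 = N) {c : Fin 4 → ℂ} (hc : c ≠ 0) :
    Ind ![((0 : ℝ), (0 : ℝ)), (0, β), (s1, t1), (s2, t2)] c := by
  have hs2 : s2 = -s1 := by linarith
  subst hs2
  have hs1 : s1 ≠ 0 := by
    rintro rfl
    apply hN
    have : (N : ℝ) = 0 := by rw [← hdet]; ring
    exact_mod_cast this
  refine move_shear (-(t1 / s1)) ?_
  have e : (fun i => ((![((0 : ℝ), (0 : ℝ)), (0, β), (s1, t1), (-s1, t2)] i).1,
      (![((0 : ℝ), (0 : ℝ)), (0, β), (s1, t1), (-s1, t2)] i).2 +
        -(t1 / s1) * (![((0 : ℝ), (0 : ℝ)), (0, β), (s1, t1), (-s1, t2)] i).1)) =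
      ![((0 : ℝ), (0 : ℝ)), (0, β), (-(-s1), 0), (-s1, t1 + t2)] := by
    funext i
    fin_cases i
    · simp
    · simp
    · simp
      field_simp
      ring
    · simp
      field_simp
      ring
  rw [e]
  refine core hβ (neg_ne_zero.2 hs1) (N := -N) (neg_ne_zero.2 hN) ?_ hc
  push_cast
  rw [← hdet]
  ring

/-- the first point at the origin -/
theorem origin {x y s1 t1 s2 t2 : ℝ} (hxy : (x, y) ≠ (0 : ℝ × ℝ))
    (hmid : x * (t1 + t2) - y * (s1 + s2) = 0) {N : ℤ} (hN : N ≠ 0)
    (hdet : s1 * t2 - t1 * s2 = N) {c : Fin 4 → ℂ} (hc : c ≠ 0) :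
    Ind ![((0 : ℝ), (0 : ℝ)), (x, y), (s1, t1), (s2, t2)] c := by
  by_cases hx : x = 0
  · subst hx
    have hy : y ≠ 0 := by
      rintro rfl
      exact hxy rfl
    refine vertical hy ?_ hN hdet hc
    have : y * (s1 + s2) = 0 := by linarith
    exact (mul_eq_zero.1 this).resolve_left hy
  · refine move_shear (-(y / x)) (move_rot ?_)
    have e : (fun i : Fin 4 => (((![((0 : ℝ), (0 : ℝ)), (x, y), (s1, t1), (s2, t2)] i).1,
        (![((0 : ℝ), (0 : ℝ)), (x, y), (s1, t1), (s2, t2)] i).2 +
        -(y / x) * (![((0 : ℝ), (0 : ℝ)), (x, y), (s1, t1), (s2, t2)] i).1).2,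
        -((![((0 : ℝ), (0 : ℝ)), (x, y), (s1, t1), (s2, t2)] i).1,
        (![((0 : ℝ), (0 : ℝ)), (x, y), (s1, t1), (s2, t2)] i).2 +
        -(y / x) * (![((0 : ℝ), (0 : ℝ)), (x, y), (s1, t1), (s2, t2)] i).1).1)) =
        ![((0 : ℝ), (0 : ℝ)), (0, -x), (t1 - y / x * s1, -s1), (t2 - y / x * s2, -s2)] := by
      funext i
      fin_cases i
      · simp
      · simp
        field_simp
        ring
      · simp
        ring
      · simp
        ring
    rw [e]
    refine vertical (neg_ne_zero.2 hx) ?_ hN ?_ hc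
    · have : x * (t1 - y / x * s1 + (t2 - y / x * s2)) = 0 := by
        rw [← hmid]; field_simp; ring
      exact (mul_eq_zero.1 this).resolve_left hx
    · rw [← hdet]
      have : x * ((t1 - y / x * s1) * -s2 - -s1 * (t2 - y / x * s2)) = x * (s1 * t2 - t1 * s2) := by
        field_simp; ring
      exact mul_left_cancel₀ hx this

/-- **Four points, the midpoint of two of them on the line through the other two.** -/
theorem general {p : Fin 4 → ℝ × ℝ} (hp : p 0 ≠ p 1)
    (hmid : ((p 1).1 - (p 0).1) * (((p 2).2 - (p 0).2) + ((p 3).2 - (p 0).2)) -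
      ((p 1).2 - (p 0).2) * (((p 2).1 - (p 0).1) + ((p 3).1 - (p 0).1)) = 0)
    {N : ℤ} (hN : N ≠ 0)
    (hdet : ((p 2).1 - (p 0).1) * ((p 3).2 - (p 0).2) -
      ((p 2).2 - (p 0).2) * ((p 3).1 - (p 0).1) = N) {c : Fin 4 → ℂ} (hc : c ≠ 0) : Ind p c := by
  refine move_translate (p 0) ?_
  have e : (fun i => p i - p 0) = ![((0 : ℝ), (0 : ℝ)), ((p 1).1 - (p 0).1, (p 1).2 - (p 0).2),
      ((p 2).1 - (p 0).1, (p 2).2 - (p 0).2), ((p 3).1 - (p 0).1, (p 3).2 - (p 0).2)] := by
    funext i
    fin_cases i
    · simp; rfl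
    · simp; rfl
    · simp; rfl
    · simp; rfl
  rw [e]
  refine origin ?_ hmid hN hdet hc
  intro h
  apply hp
  have h1 : (p 1).1 - (p 0).1 = 0 := congrArg Prod.fst h
  have h2 : (p 1).2 - (p 0).2 = 0 := congrArg Prod.snd h
  exact Prod.ext (by linarith) (by linarith)

end

end Pool.Agent.KS6_4.HR
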