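import Pool.Agent.KS6_4.HR.Circ

set_option autoImplicit false

open MeasureTheory Complex Filter Topology Set FourierTransform
open scoped ENNReal

namespace Pool.Agent.KS6_4.HR

open Pool.Agent.Y306

noncomputable section

/-- the relation `∑ c_i π(p_i) f = 0` -/
def Rel (p : Fin 4 → ℝ × ℝ) (c : Fin 4 → ℂ) (f : H) : Prop :=
  ∑ i, c i • tf (p i).1 (p i).2 f = 0

/-- no nonzero `f` satisfies a relation with coefficients of the moduli `|c_i|` -/
def Ind (p : Fin 4 → ℝ × ℝ) (c : Fin 4 → ℂ) : Prop :=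
  ∀ (c' : Fin 4 → ℂ) (f : H), (∀ i, ‖c' i‖ = ‖c i‖) → Rel p c' f → f = 0

lemma rel_ae4 {p : Fin 4 → ℝ × ℝ} {c : Fin 4 → ℂ} {f : H} (h : Rel p c f) :
    ∀ᵐ x : ℝ, ∑ i, c i * (ee ((p i).2 * x) * f (x - (p i).1)) = 0 := by
  have h1 := rel_ae (f := f) (l := List.ofFn fun i : Fin 4 => (c i, (p i).1, (p i).2)) (by
    unfold Rel at h
    rw [Fin.sum_univ_four] at h
    simp [List.ofFn_succ, Fin.succ_zero_eq_one, Fin.succ_one_eq_two]
    rw [← h]
    abel_nf)
  filter_upwards [h1] with x hx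
  rw [Fin.sum_univ_four]
  simp [List.ofFn_succ] at hx
  linear_combination hx

lemma rel_of_ae4 {p : Fin 4 → ℝ × ℝ} {c : Fin 4 → ℂ} {f : ℝ → ℂ} (hf : MemLp f 2 volume)
    (h : ∀ᵐ x : ℝ, ∑ i, c i * (ee ((p i).2 * x) * f (x - (p i).1)) = 0) :
    Rel p c (hf.toLp f) := by
  have h1 := rel_of_ae hf (l := List.ofFn fun i : Fin 4 => (c i, (p i).1, (p i).2)) (by
    filter_upwards [h] with x hx
    rw [Fin.sum_univ_four] at hx
    simp [List.ofFn_succ]
    linear_combination hx)
  unfold Rel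
  rw [Fin.sum_univ_four]
  simp [List.ofFn_succ] at h1
  rw [← h1]
  abel_nf

/-- translations of the configuration -/
lemma move_translate (v : ℝ × ℝ) {p : Fin 4 → ℝ × ℝ} {c : Fin 4 → ℂ}
    (h : Ind (fun i => p i - v) c) : Ind p c := by
  intro c' f hc hr
  have h1 : tf v.1 v.2 f = 0 := by
    refine h (fun i => c' i * ee (v.2 * ((p i).1 - v.1))) _ ?_ ?_
    · intro i
      rw [norm_mul, norm_ee, mul_one, hc]
    · unfold Rel at hr ⊢
      rw [← hr]
      refine Finset.sum_congr rfl fun i _ => ?_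
      rw [tf_tf, smul_smul, mul_assoc, ← ee_add]
      simp only [Prod.fst_sub, Prod.snd_sub, add_neg_cancel, ee_zero, mul_one, sub_add_cancel]
  rw [← norm_eq_zero, LinearIsometry.norm_map, norm_eq_zero] at h1
  exact h1

/-- the Fourier transform -/
lemma move_rot {p : Fin 4 → ℝ × ℝ} {c : Fin 4 → ℂ}
    (h : Ind (fun i => ((p i).2, -(p i).1)) c) : Ind p c := by
  intro c' f hc hr
  have h1 : (𝓕 f : H) = 0 := by
    refine h (fun i => c' i * ee ((p i).1 * (p i).2)) _ ?_ ?_
    · intro i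
      rw [norm_mul, norm_ee, mul_one, hc]
    · unfold Rel at hr ⊢
      have h2 := congrArg (fun f : H => 𝓕 f) hr
      have hz : 𝓕 (0 : H) = 0 := (Lp.fourierTransformₗᵢ ℝ ℂ).map_zero
      simp only [Fin.sum_univ_four, FourierTransform.fourier_add, FourierTransform.fourier_smul,
        fourier_tf, smul_smul, hz] at h2 ⊢
      exact h2
  have h2 : ‖f‖ = 0 := by rw [← Lp.norm_fourier_eq, h1, norm_zero]
  exact norm_eq_zero.1 h2

/-- multiplication by a chirp -/
lemma move_shear (σ : ℝ) {p : Fin 4 → ℝ × ℝ} {c : Fin 4 → ℂ}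
    (h : Ind (fun i => ((p i).1, (p i).2 + σ * (p i).1)) c) : Ind p c := by
  intro c' f hc hr
  have hf := memLp_chirp (Lp.memLp f) (σ / 2)
  have h1 : hf.toLp _ = 0 := by
    refine h (fun i => c' i * ee (-(σ / 2 * (p i).1 ^ 2))) _ ?_ ?_
    · intro i
      rw [norm_mul, norm_ee, mul_one, hc]
    · refine rel_of_ae4 hf ?_
      filter_upwards [rel_ae4 hr] with x hx
      have e1 : ∀ i : Fin 4, c' i * ee (-(σ / 2 * (p i).1 ^ 2)) * (ee (((p i).2 + σ * (p i).1) * x) *
          (ee (σ / 2 * (x - (p i).1) ^ 2) * f (x - (p i).1))) =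
          ee (σ / 2 * x ^ 2) * (c' i * (ee ((p i).2 * x) * f (x - (p i).1))) := by
        intro i
        have e2 : ee (-(σ / 2 * (p i).1 ^ 2)) * (ee (((p i).2 + σ * (p i).1) * x) *
            ee (σ / 2 * (x - (p i).1) ^ 2)) = ee (σ / 2 * x ^ 2) * ee ((p i).2 * x) := by
          rw [← ee_add, ← ee_add, ← ee_add]
          congr 1
          ring
        linear_combination (c' i * f (x - (p i).1)) * e2
      rw [Finset.sum_congr rfl fun i _ => e1 i, ← Finset.mul_sum, hx, mul_zero]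
  have h2 := hf.coeFn_toLp
  rw [h1] at h2
  apply Lp.ext
  filter_upwards [h2, Lp.coeFn_zero ℂ 2 (volume : Measure ℝ)] with x h3 h4
  rw [h4] at h3 ⊢
  have h5 : ee (σ / 2 * x ^ 2) * f x = 0 := h3.symm
  rcases mul_eq_zero.1 h5 with h6 | h6
  · exact absurd h6 (ee_ne _)
  · exact h6

/-- one coefficient function of period `1/|β|` -/
lemma first_order' {φ : ℝ → ℂ} (hφ : MemLp φ 2 volume) {s β : ℝ} (hs : s ≠ 0) (hβ : β ≠ 0)
    {a b : ℂ} {d : ℂ} (hd : d ≠ 0) {u : ℝ → ℂ} (hu : ∀ x, ‖u x‖ = 1)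
    (h : ∀ᵐ x : ℝ, (a + b * ee (β * x)) * φ x + d * (u x * φ (x - s)) = 0) : φ =ᵐ[volume] 0 := by
  have hT : 0 < 1 / |β| := by have := abs_pos.2 hβ; positivity
  refine recurrence hφ hs (T := 1 / |β|) hT (p := fun x => ‖a + b * ee (β * x)‖ / ‖d‖) ?_ ?_ ?_
  · have : Continuous fun x : ℝ => ‖a + b * ee (β * x)‖ / ‖d‖ := by
      have := continuous_ee
      fun_prop
    exact this.measurable
  · intro y
    have : ee (β * (y + 1 / |β|)) = ee (β * y) := by
      rw [mul_add, ee_add]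
      rcases abs_cases β with ⟨h1, _⟩ | ⟨h1, _⟩
      · rw [h1, mul_one_div_cancel hβ, ee_one, mul_one]
      · rw [h1, show β * (1 / -β) = -1 by field_simp, ee_neg, ee_one, inv_one, mul_one]
    simp only [this]
  · filter_upwards [h] with x hx
    have h1 : d * (u x * φ (x - s)) = -((a + b * ee (β * x)) * φ x) := by linear_combination hx
    have h2 := congrArg norm h1
    rw [norm_mul, norm_mul, hu, one_mul, norm_neg, norm_mul] at h2
    have hd' : 0 < ‖d‖ := norm_pos_iff.2 hd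
    rw [div_mul_eq_mul_div, eq_div_iff hd'.ne']
    linarith

lemma zero_order {φ : ℝ → ℂ} {β : ℝ} (hβ : β ≠ 0) {a b : ℂ} (hab : a ≠ 0 ∨ b ≠ 0)
    (h : ∀ᵐ x : ℝ, (a + b * ee (β * x)) * φ x = 0) : φ =ᵐ[volume] 0 := by
  have hcount : {x : ℝ | a + b * ee (β * x) = 0}.Countable := by
    by_cases h2 : b = 0
    · have h0 : a ≠ 0 := by
        rcases hab with h | h
        · exact h
        · exact absurd h2 h
      have : {x : ℝ | a + b * ee (β * x) = 0} = ∅ := by
        ext x; simp [h2, h0]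
      rw [this]; exact countable_empty
    · have hinj : Function.Injective fun x : ℝ => -(β * x) := by
        intro x y hxy
        have : β * x = β * y := by simpa using hxy
        exact mul_left_cancel₀ hβ this
      have h4 := (countable_ee (-a / b)).preimage hinj
      refine h4.mono ?_
      intro x hx
      simp only [mem_ofPred_eq] at hx
      simp only [mem_preimage, mem_ofPred_eq, neg_neg]
      rw [eq_div_iff h2]
      linear_combination hx
  have h5 : ∀ᵐ x : ℝ, x ∉ {x : ℝ | a + b * ee (β * x) = 0} :=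
    measure_eq_zero_iff_ae_notMem.1 (hcount.measure_zero volume)
  filter_upwards [h, h5] with x hx1 hx2
  rcases mul_eq_zero.1 hx1 with h7 | h7
  · exact absurd h7 hx2
  · exact h7

lemma eq_zero_of_ae {f : H} (h : (f : ℝ → ℂ) =ᵐ[volume] 0) : f = 0 :=
  Lp.ext (h.trans (Lp.coeFn_zero _ _ _).symm)

end

end Pool.Agent.KS6_4.HR
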