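import Pool.Graph.R_seed8.Y306.Four

set_option autoImplicit false

open MeasureTheory Complex Filter Topology Set AddCircle
open scoped ENNReal

namespace Pool.Agent.KS6_4.HR

open Pool.Agent.Y306

noncomputable section

/-- `∑_{j<q} e(kjθ)` -/
def S (θ : ℝ) (q k : ℕ) : ℂ := ∑ j ∈ Finset.range q, (ee θ ^ k) ^ j

lemma ee_pow (x : ℝ) (n : ℕ) : ee x ^ n = ee (n * x) := by
  have := ee_mul_int x n
  push_cast at this
  rw [this, zpow_natCast]

lemma norm_one_sub_ee_le (x : ℝ) : ‖1 - ee x‖ ≤ 2 * Real.pi * |x| := by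
  rw [norm_one_sub_ee]
  have h : |Real.sin (Real.pi * x)| ≤ |Real.pi * x| := Real.abs_sin_le_abs
  rw [abs_mul, abs_of_pos Real.pi_pos] at h
  linarith

lemma S_le (θ : ℝ) (q k : ℕ) : ‖S θ q k‖ ≤ q := by
  unfold S
  refine (norm_sum_le _ _).trans ?_
  refine (Finset.sum_le_card_nsmul _ _ 1 fun j _ => ?_).trans ?_
  · rw [norm_pow, norm_pow, norm_ee, one_pow, one_pow]
  · simp

lemma S_geom (θ : ℝ) (q k : ℕ) : (1 - ee θ ^ k) * S θ q k = 1 - ee θ ^ (k * q) := by
  unfold S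
  rw [pow_mul]
  exact mul_neg_geom_sum _ _

lemma ee_pow_ne {θ : ℝ} (hθ : Irrational θ) {k : ℕ} (hk : 1 ≤ k) : (1 : ℂ) - ee θ ^ k ≠ 0 := by
  intro h
  rw [ee_pow] at h
  have h1 : ee (k * θ) = 1 := by linear_combination -h
  obtain ⟨m, hm⟩ := (ee_eq_one_iff _).1 h1
  have h2 : Irrational ((k : ℝ) * θ) := by
    have := hθ.natCast_mul (m := k) (by omega)
    exact this
  exact h2 ⟨m, by rw [hm]; simp⟩

/-- a sequence of times of uniform rigidity for the rotation by an irrational `θ` -/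
structure Rig (θ : ℝ) (q : ℕ → ℕ) : Prop where
  tend : Tendsto q atTop atTop
  small : ∀ k : ℕ, 1 ≤ k → Tendsto (fun n => ‖S θ (q n) k‖) atTop (𝓝 0)
  bound : ∀ k n : ℕ, 1 ≤ k → ‖S θ (q n) k‖ ≤ 4 * k

theorem exists_rig {θ : ℝ} (hθ : Irrational θ) : ∃ q : ℕ → ℕ, Rig θ q := by
  have hex : ∀ n : ℕ, ∃ r : ℚ, |θ - r| ≤ 1 / (((n + 1 : ℕ) + 1 : ℝ) * r.den) ∧ r.den ≤ n + 1 := by
    intro n
    have := Real.exists_rat_abs_sub_le_and_den_le θ (Nat.succ_pos n); exact this
  choose r hr1 hr2 using hex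
  have hden : ∀ n, (0 : ℝ) < (r n).den := fun n => by exact_mod_cast (r n).pos
  -- first consequence
  have hq : ∀ n, |((r n).den : ℝ) * θ - (r n).num| ≤ 1 / ((n : ℝ) + 2) := by
    intro n
    have h1 := hr1 n
    have h2 : ((r n : ℚ) : ℝ) = (r n).num / (r n).den := by exact_mod_cast (Rat.num_div_den (r n)).symm
    have h3 : ((r n).den : ℝ) * θ - (r n).num = (r n).den * (θ - r n) := by
      rw [h2]
      have := (hden n).ne'
      field_simp
    rw [h3, abs_mul, abs_of_pos (hden n)]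
    have h4 : ((r n).den : ℝ) * |θ - r n| ≤ (r n).den * (1 / (((n + 1 : ℕ) + 1 : ℝ) * (r n).den)) :=
      mul_le_mul_of_nonneg_left h1 (hden n).le
    refine h4.trans (le_of_eq ?_)
    have := (hden n).ne'
    push_cast
    field_simp
    ring
  have hpow : ∀ n k : ℕ, ee θ ^ (k * (r n).den) = ee (k * ((r n).den * θ - (r n).num)) := by
    intro n k
    rw [ee_pow]
    have : ((k : ℝ) * ((r n).den * θ - (r n).num)) = ((k * (r n).den : ℕ) : ℝ) * θ -
      ((k * (r n).num : ℤ) : ℝ) := by push_cast; ring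
    rw [this, ee_sub, ee_int, inv_one, mul_one]
  have hpow2 : ∀ n k : ℕ, ‖1 - ee θ ^ (k * (r n).den)‖ ≤ 2 * Real.pi * (k * (1 / ((n : ℝ) + 2))) := by
    intro n k
    rw [hpow]
    refine (norm_one_sub_ee_le _).trans ?_
    rw [abs_mul, abs_of_nonneg (by positivity : (0 : ℝ) ≤ k)]
    have := Real.pi_pos
    gcongr
    exact hq n
  have htend0 : Tendsto (fun n : ℕ => 1 / ((n : ℝ) + 2)) atTop (𝓝 0) := by
    have h1 : Tendsto (fun n : ℕ => (n : ℝ) + 2) atTop atTop :=
      tendsto_atTop_add_const_right _ _ tendsto_natCast_atTop_atTop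
    exact h1.inv_tendsto_atTop.congr fun n => by simp
  refine ⟨fun n => (r n).den, ⟨?_, ?_, ?_⟩⟩
  · rw [tendsto_atTop]
    intro b
    have h1 : ∀ᶠ n : ℕ in atTop, ∀ j ∈ Finset.range b, 1 ≤ j →
        ‖1 - ee θ ^ (1 * (r n).den)‖ < ‖1 - ee θ ^ j‖ := by
      rw [Filter.eventually_all_finset]
      intro j _
      by_cases hj : 1 ≤ j
      · have h2 : Tendsto (fun n : ℕ => 2 * Real.pi * (((1 : ℕ) : ℝ) * (1 / ((n : ℝ) + 2)))) atTop (𝓝 0) := by
          have := (htend0.const_mul ((1 : ℕ) : ℝ)).const_mul (2 * Real.pi)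
          simpa using this
        have h3 : 0 < ‖1 - ee θ ^ j‖ := norm_pos_iff.2 (ee_pow_ne hθ hj)
        filter_upwards [h2.eventually (gt_mem_nhds h3)] with n hn _
        exact lt_of_le_of_lt (hpow2 n 1) hn
      · exact Eventually.of_forall fun n h => absurd h hj
    filter_upwards [h1] with n hn
    by_contra hcon
    push Not at hcon
    have h2 := hn _ (Finset.mem_range.2 hcon) (r n).pos
    rw [one_mul] at h2
    exact lt_irrefl _ h2
  · intro k hk
    have hne := ee_pow_ne hθ hk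
    have h3 : 0 < ‖1 - ee θ ^ k‖ := norm_pos_iff.2 hne
    have h2 : Tendsto (fun n : ℕ => 2 * Real.pi * ((k : ℝ) * (1 / ((n : ℝ) + 2))) / ‖1 - ee θ ^ k‖)
        atTop (𝓝 0) := by
      have := ((htend0.const_mul (k : ℝ)).const_mul (2 * Real.pi)).div_const ‖1 - ee θ ^ k‖
      simpa using this
    refine squeeze_zero (fun n => norm_nonneg _) (fun n => ?_) h2
    rw [le_div_iff₀ h3, mul_comm, ← norm_mul, S_geom]
    exact hpow2 n k
  · intro k n hk
    set q := (r n).den with hqdef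
    set p := (r n).num with hpdef
    have hq0 : (0 : ℝ) < q := hden n
    rcases le_or_gt (q : ℝ) (2 * k) with hc | hc
    · refine (S_le _ _ _).trans ?_
      have : (0 : ℝ) ≤ k := by positivity
      linarith
    · -- small k
      have hkpos : (0 : ℝ) < k := by exact_mod_cast hk
      have hqn : (q : ℝ) ≤ n + 1 := by exact_mod_cast hr2 n
      have hlow : 1 / (2 * (q : ℝ)) ≤ |(k : ℝ) * θ - round ((k : ℝ) * θ)| := by
        set m := round ((k : ℝ) * θ) with hm
        have hne : (k : ℤ) * p - m * q ≠ 0 := by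
          intro h0
          have hcop : IsCoprime (p : ℤ) (q : ℤ) := by
            have := (r n).reduced
            rw [Int.isCoprime_iff_gcd_eq_one]
            exact this
          have hdvd : (q : ℤ) ∣ (k : ℤ) * p := ⟨m, by linarith⟩
          have h5 : (q : ℤ) ∣ (k : ℤ) := hcop.symm.dvd_of_dvd_mul_right hdvd
          have h6 : q ∣ k := by exact_mod_cast h5
          have h7 := Nat.le_of_dvd (by omega) h6
          have h8 : (q : ℝ) ≤ k := by exact_mod_cast h7
          linarith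
        have h5 : (1 : ℝ) ≤ |(k : ℝ) * p - m * q| := by
          have := Int.one_le_abs hne
          exact_mod_cast this
        have h6 := hq n
        have h7 : (k : ℝ) * p - m * q = q * (k * θ - m) - k * (q * θ - p) := by ring
        rw [h7] at h5
        have h8 : |q * ((k : ℝ) * θ - m) - k * (q * θ - p)| ≤ q * |(k : ℝ) * θ - m| +
            k * |(q : ℝ) * θ - p| := by
          refine (abs_sub _ _).trans ?_
          rw [abs_mul, abs_mul, abs_of_pos hq0, abs_of_pos hkpos]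
        have h9 : (k : ℝ) * |(q : ℝ) * θ - p| ≤ 1 / 2 := by
          have h10 : (k : ℝ) * |(q : ℝ) * θ - p| ≤ k * (1 / ((n : ℝ) + 2)) :=
            mul_le_mul_of_nonneg_left h6 hkpos.le
          refine h10.trans ?_
          rw [mul_one_div, div_le_iff₀ (by positivity)]
          linarith
        rw [div_le_iff₀ (by positivity)]
        nlinarith
      have h1 : 4 * (1 / (2 * (q : ℝ))) ≤ ‖1 - ee θ ^ k‖ := by
        rw [ee_pow]
        refine le_trans ?_ (norm_one_sub_ee_ge _)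
        linarith
      have h2 : ‖1 - ee θ ^ k‖ * ‖S θ q k‖ ≤ 2 * Real.pi * (k * (1 / ((n : ℝ) + 2))) := by
        rw [← norm_mul, S_geom]
        exact hpow2 n k
      have h3 : 4 * (1 / (2 * (q : ℝ))) * ‖S θ q k‖ ≤ 2 * Real.pi * (k * (1 / ((n : ℝ) + 2))) :=
        (mul_le_mul_of_nonneg_right h1 (norm_nonneg _)).trans h2
      have h4 : 1 / ((n : ℝ) + 2) ≤ 1 / q := by
        apply one_div_le_one_div_of_le hq0
        linarith
      have h5 : 2 * Real.pi * (k * (1 / ((n : ℝ) + 2))) ≤ 2 * Real.pi * (k * (1 / q)) := by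
        have := Real.pi_pos
        gcongr
      have h6 : 4 * (1 / (2 * (q : ℝ))) * ‖S θ q k‖ ≤ 2 * Real.pi * (k * (1 / q)) := h3.trans h5
      have h7 : ‖S θ q k‖ ≤ Real.pi * k := by
        have e1 : 4 * (1 / (2 * (q : ℝ))) * ‖S θ q k‖ = 2 * ‖S θ q k‖ / q := by
          field_simp
          norm_num
        have e2 : 2 * Real.pi * (k * (1 / (q : ℝ))) = 2 * (Real.pi * k) / q := by
          field_simp
        rw [e1, e2, div_le_div_iff_of_pos_right hq0] at h6
        linarith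
      have := Real.pi_lt_four
      nlinarith

lemma prod_eq_exp {ω : ℂ} (hω : ‖ω‖ = 1) {x : ℂ} (hx : ‖x‖ < 1) (q : ℕ) :
    ∏ j ∈ Finset.range q, (1 - x * ω ^ j) =
      Complex.exp (-∑ j ∈ Finset.range q, -Complex.log (1 - x * ω ^ j)) := by
  rw [← Finset.sum_neg_distrib, Complex.exp_sum]
  refine Finset.prod_congr rfl fun j _ => ?_
  rw [neg_neg, Complex.exp_log]
  intro h0
  have h1 : x * ω ^ j = 1 := by linear_combination -h0
  have h2 := congrArg norm h1
  rw [norm_mul, norm_pow, hω, one_pow, mul_one, norm_one] at h2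
  linarith

lemma norm_log_sum_le {θ : ℝ} {x : ℂ} {ρ : ℝ} (hx : ‖x‖ ≤ ρ) (hρ : ρ < 1) (q : ℕ)
    (hs : Summable fun k : ℕ => ρ ^ k / k * ‖S θ q k‖) :
    ‖∑ j ∈ Finset.range q, -Complex.log (1 - x * ee θ ^ j)‖ ≤ ∑' k : ℕ, ρ ^ k / k * ‖S θ q k‖ := by
  have h1 : HasSum (fun k : ℕ => ∑ j ∈ Finset.range q, (x * ee θ ^ j) ^ k / k)
      (∑ j ∈ Finset.range q, -Complex.log (1 - x * ee θ ^ j)) := by
    refine hasSum_sum fun j _ => ?_
    apply Complex.hasSum_taylorSeries_neg_log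
    rw [norm_mul, norm_pow, norm_ee, one_pow, mul_one]
    linarith
  have h2 : ∀ k : ℕ, ∑ j ∈ Finset.range q, (x * ee θ ^ j) ^ k / k = x ^ k / k * S θ q k := by
    intro k
    unfold S
    rw [Finset.mul_sum]
    refine Finset.sum_congr rfl fun j _ => ?_
    rw [mul_pow, ← pow_mul, ← pow_mul, mul_comm j k]
    ring
  rw [← h1.tsum_eq]
  refine tsum_of_norm_bounded hs.hasSum fun k => ?_
  rw [h2, norm_mul, norm_div, norm_pow, Complex.norm_natCast]
  have : (0 : ℝ) ≤ k := by positivity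
  gcongr

/-- **Rigidity.** Along rigid times the products `∏_{j<q} (1 - x ω^j)` tend to `1`. -/
theorem Rig.prod {θ : ℝ} {q : ℕ → ℕ} (h : Rig θ q) {ρ : ℝ} (h0 : 0 ≤ ρ) (h1 : ρ < 1) {ε : ℝ}
    (hε : 0 < ε) : ∀ᶠ n in atTop, ∀ x : ℂ, ‖x‖ ≤ ρ →
      ‖∏ j ∈ Finset.range (q n), (1 - x * ee θ ^ j) - 1‖ ≤ ε := by
  have hb : ∀ n k : ℕ, ‖ρ ^ k / k * ‖S θ (q n) k‖‖ ≤ 4 * ρ ^ k := by
    intro n k
    rw [Real.norm_eq_abs, abs_of_nonneg (by positivity)]
    rcases Nat.eq_zero_or_pos k with rfl | hk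
    · simp
    · have hk' : (0 : ℝ) < k := by exact_mod_cast hk
      have := h.bound k n hk
      calc ρ ^ k / k * ‖S θ (q n) k‖ ≤ ρ ^ k / k * (4 * k) := by gcongr
        _ = 4 * ρ ^ k := by field_simp
  have hsum : Summable fun k : ℕ => 4 * ρ ^ k := (summable_geometric_of_lt_one h0 h1).mul_left 4
  have hsn : ∀ n, Summable fun k : ℕ => ρ ^ k / k * ‖S θ (q n) k‖ := fun n =>
    Summable.of_norm_bounded hsum (hb n)
  have ht : Tendsto (fun n => ∑' k : ℕ, ρ ^ k / k * ‖S θ (q n) k‖) atTop (𝓝 (∑' k : ℕ, (0 : ℝ))) := by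
    refine tendsto_tsum_of_dominated_convergence hsum (fun k => ?_) (Eventually.of_forall fun n k => hb n k)
    rcases Nat.eq_zero_or_pos k with rfl | hk
    · simp
    · have := (h.small k hk).const_mul (ρ ^ k / k)
      simpa using this
  rw [tsum_zero] at ht
  have hε2 : 0 < min 1 (ε / 2) := lt_min one_pos (by positivity)
  filter_upwards [ht.eventually (gt_mem_nhds hε2)] with n hn x hx
  have hx1 : ‖x‖ < 1 := lt_of_le_of_lt hx h1
  rw [prod_eq_exp (norm_ee θ) hx1]
  have h3 := norm_log_sum_le hx h1 (q n) (hsn n)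
  have h4 : ‖-∑ j ∈ Finset.range (q n), -Complex.log (1 - x * ee θ ^ j)‖ ≤ min 1 (ε / 2) := by
    rw [norm_neg]; linarith
  refine (Complex.norm_exp_sub_one_le (h4.trans (min_le_left _ _))).trans ?_
  have := h4.trans (min_le_right _ _)
  linarith

/-- the same with the conjugate rotation -/
theorem Rig.prod' {θ : ℝ} {q : ℕ → ℕ} (h : Rig θ q) {ρ : ℝ} (h0 : 0 ≤ ρ) (h1 : ρ < 1) {ε : ℝ}
    (hε : 0 < ε) : ∀ᶠ n in atTop, ∀ x : ℂ, ‖x‖ ≤ ρ →
      ‖∏ j ∈ Finset.range (q n), (1 - x * (starRingEnd ℂ (ee θ)) ^ j) - 1‖ ≤ ε := by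
  filter_upwards [h.prod h0 h1 hε] with n hn x hx
  have h2 := hn (starRingEnd ℂ x) (by rwa [RCLike.norm_conj])
  rw [← RCLike.norm_conj, map_sub, map_one, map_prod] at h2
  refine (le_of_eq ?_).trans h2
  congr 2
  refine Finset.prod_congr rfl fun j _ => ?_
  rw [map_sub, map_one, map_mul, map_pow, Complex.conj_conj]

end

end Pool.Agent.KS6_4.HR
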